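import Mathlib
import Pool.Agent.K4H59.TL.Spec

/-! Piece G4 (pc_disj) of MP_885f6d_mp, general half. -/

set_option autoImplicit false

open Set

namespace Pool.Agent.K4H59.TL

theorem const_zero4 (L : ℂ →L[ℝ] ℝ) (x : ℂ) (c : ℝ) {U : Set ℂ} (hU : U ∈ nhds x)
    (h : ∀ y ∈ U, L y = c) : L = 0 := by
  refine ContinuousLinearMap.ext fun w => ?_
  have hx := h x (mem_of_mem_nhds hU)
  have ht : Filter.Tendsto (fun t : ℝ => x + t • w) (nhds 0) (nhds x) := by
    have : Continuous (fun t : ℝ => x + t • w) := by fun_prop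
    simpa using this.tendsto 0
  have h1 : ∀ᶠ t : ℝ in nhdsWithin 0 {0}ᶜ, x + t • w ∈ U :=
    (ht.eventually hU).filter_mono nhdsWithin_le_nhds
  obtain ⟨t, ht1, ht2⟩ := (h1.and self_mem_nhdsWithin).exists
  have h2 := h _ ht1
  rw [map_add, map_smul, smul_eq_mul, hx] at h2
  have h3 : t * L w = 0 := by linarith
  rcases mul_eq_zero.mp h3 with h4 | h4
  · exact absurd h4 ht2
  · simpa using h4

variable {K : Set ℂ} {O : ℂ} {H : Finset (ℂ →L[ℝ] ℝ)} {f₀ h h' : ℂ →L[ℝ] ℝ} {j j' : ℕ}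

theorem level4 {x : ℂ} (hx : pc H f₀ O h j ∈ nhds x) (hx' : pc H f₀ O h j' ∈ nhds x)
    (hj : j < j') : False := by
  have hU := Filter.inter_mem hx hx'
  have hc : ∀ y ∈ pc H f₀ O h j ∩ pc H f₀ O h j', h y = (1 / 2 : ℝ) ^ (j + 1) + h O := by
    rintro y ⟨⟨-, -, h1, -⟩, ⟨-, -, -, h2⟩⟩
    have h3 : (1 / 2 : ℝ) ^ j' ≤ (1 / 2 : ℝ) ^ (j + 1) :=
      pow_le_pow_of_le_one (by norm_num) (by norm_num) hj
    rw [map_sub] at h1 h2
    linarith
  have h0 := const_zero4 h x _ hU hc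
  obtain ⟨-, -, h1, -⟩ := mem_of_mem_nhds hx
  rw [h0] at h1
  have h2 : (0 : ℝ) < (1 / 2 : ℝ) ^ (j + 1) := by positivity
  simp only [ContinuousLinearMap.zero_apply] at h1
  linarith

/-- PIECE G4 -/
theorem pc_disj (hR : Rep K O H) (hA : Act H f₀ h) (hA' : Act H f₀ h') (hne : ¬ (h = h' ∧ j = j')) :
    Disjoint (interior (pc H f₀ O h j)) (interior (pc H f₀ O h' j')) := by
  rw [Set.disjoint_left]
  intro x hx hx'
  rw [mem_interior_iff_mem_nhds] at hx hx'
  have hU := Filter.inter_mem hx hx'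
  have he : h - h' = 0 := by
    refine const_zero4 (h - h') x ((h - h') O) hU ?_
    rintro y ⟨⟨-, h1, -, -⟩, ⟨-, h2, -, -⟩⟩
    have h3 := h1 h' hA'.1
    have h4 := h2 h hA.1
    have h5 : h (y - O) = h' (y - O) := le_antisymm h4 h3
    rw [map_sub, map_sub] at h5
    simp only [ContinuousLinearMap.sub_apply]
    linarith
  have he' : h = h' := sub_eq_zero.mp he
  subst he'
  have hj : j ≠ j' := fun e => hne ⟨rfl, e⟩
  rcases lt_or_gt_of_ne hj with h6 | h6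
  · exact level4 hx hx' h6
  · exact level4 hx' hx h6

end Pool.Agent.K4H59.TL
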