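import Mathlib
import Pool.Agent.K4H59.TL.Spec

/-! Piece G9 (centers) of MP_885f6d_mp, general half; `rep_exists` (G1) is an explicit hypothesis. -/

set_option autoImplicit false

open Set

namespace Pool.Agent.K4H59.TL

open Pool.Agent.K4H72.Til (IsPolygon)

/-- PIECE G9 with G1 as a hypothesis -/
theorem centers_of (hG1 : ∀ {K : Set ℂ} {O : ℂ}, IsPolygon K → O ∈ interior K →
      ∃ H : Finset (ℂ →L[ℝ] ℝ), Rep K O H)
    {K : Set ℂ} (hK : IsPolygon K) :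
    ∃ (O₁ O₂ : ℂ) (H₁ H₂ : Finset (ℂ →L[ℝ] ℝ)) (f₀ : ℂ →L[ℝ] ℝ), f₀ ≠ 0 ∧
    O₁ ∈ interior K ∧ O₂ ∈ interior K ∧ Rep K O₁ H₁ ∧ Rep K O₂ H₂ ∧ f₀ (O₂ - O₁) = 0 ∧ O₁ ≠ O₂ ∧
    (∀ h ∈ H₁, h (O₂ - O₁) ≤ 1 / 2) ∧ ∃ h ∈ H₁, h (O₂ - O₁) = 1 / 2 := by
  have hint : (interior K).Nonempty := by
    obtain ⟨x, hx⟩ := hK.1
    have := hK.2.2.1 hx
    exact closure_nonempty_iff.mp ⟨x, this⟩
  obtain ⟨O₁, hO₁⟩ := hint
  obtain ⟨H₁, R1⟩ := hG1 hK hO₁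
  obtain ⟨h₀, hh₀, hpos⟩ := R1.pos 1 one_ne_zero
  obtain ⟨m, hm, hmax⟩ := H₁.exists_max_image (fun h => h 1) ⟨h₀, hh₀⟩
  have hM : 0 < m 1 := lt_of_lt_of_le hpos (hmax h₀ hh₀)
  set t : ℝ := 1 / (2 * m 1) with ht
  have ht0 : 0 < t := by positivity
  set O₂ : ℂ := O₁ + t • (1 : ℂ) with hO₂
  have hsub : O₂ - O₁ = t • (1 : ℂ) := by rw [hO₂]; ring
  have hval : ∀ h : ℂ →L[ℝ] ℝ, h (O₂ - O₁) = t * h 1 := by
    intro h
    rw [hsub, map_smul, smul_eq_mul]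
  have hle : ∀ h ∈ H₁, h (O₂ - O₁) ≤ 1 / 2 := by
    intro h hh
    rw [hval, ht]
    have h1 := hmax h hh
    rw [div_mul_eq_mul_div, one_mul, div_le_div_iff₀ (by positivity) (by norm_num)]
    linarith
  have heq : m (O₂ - O₁) = 1 / 2 := by
    rw [hval, ht]
    field_simp
  have hO₂K : O₂ ∈ interior K := by
    rw [mem_interior]
    refine ⟨⋂ h ∈ H₁, {x : ℂ | h (x - O₁) < 1}, ?_, ?_, ?_⟩
    · intro x hx
      rw [R1.eq]
      intro h hh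
      have := mem_iInter₂.mp hx h hh
      exact le_of_lt this
    · refine isOpen_biInter_finset fun h _ => ?_
      exact isOpen_lt (by fun_prop) continuous_const
    · refine mem_iInter₂.mpr fun h hh => ?_
      show h (O₂ - O₁) < 1
      linarith [hle h hh]
  obtain ⟨H₂, R2⟩ := hG1 hK hO₂K
  refine ⟨O₁, O₂, H₁, H₂, Complex.imCLM, ?_, hO₁, hO₂K, R1, R2, ?_, ?_, hle, m, hm, heq⟩
  · intro h0
    have := congrArg (fun f : ℂ →L[ℝ] ℝ => f Complex.I) h0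
    simp at this
  · rw [hsub]
    simp
  · intro h0
    rw [← h0, sub_self, map_zero] at heq
    norm_num at heq

end Pool.Agent.K4H59.TL
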