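import Mathlib
import Pool.Agent.K4H25.FH.Spec

/-! Piece PHI: the analysis of `phi`, 1/2 < H < 1. -/

set_option autoImplicit false

namespace Pool.Agent.K4H25.FH

open Finset Set

/-- positivity of the third difference -/
theorem d3_pos (q q1 q2 q3 : ℝ → ℝ) (a : ℝ)
    (h1 : ∀ x, a < x → HasDerivAt q (q1 x) x) (h2 : ∀ x, a < x → HasDerivAt q1 (q2 x) x)
    (h3 : ∀ x, a < x → HasDerivAt q2 (q3 x) x) (hq3 : ∀ x, a < x → 0 < q3 x)
    (hc : ContinuousOn q (Ici a)) :
    0 < q (a + 3) - 3 * q (a + 2) + 3 * q (a + 1) - q a := by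
  have m2 : StrictMonoOn q2 (Ioi a) := by
    apply strictMonoOn_of_deriv_pos (convex_Ioi a)
    · exact fun x hx => (h3 x hx).continuousAt.continuousWithinAt
    · intro x hx
      rw [interior_Ioi] at hx
      rw [(h3 x hx).deriv]; exact hq3 x hx
  have m1 : StrictMonoOn (fun y => q1 (y + 1) - q1 y) (Ioi a) := by
    have hd : ∀ x, a < x → HasDerivAt (fun y => q1 (y + 1) - q1 y) (q2 (x + 1) - q2 x) x := by
      intro x hx
      exact ((h2 (x + 1) (by linarith)).comp_add_const x 1).sub (h2 x hx)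
    apply strictMonoOn_of_deriv_pos (convex_Ioi a)
    · exact fun x hx => (hd x hx).continuousAt.continuousWithinAt
    · intro x hx
      rw [interior_Ioi] at hx
      rw [(hd x hx).deriv]
      have := m2 (show x ∈ Ioi a from hx) (show x + 1 ∈ Ioi a from by
        simp only [Set.mem_Ioi] at hx ⊢; linarith) (by linarith)
      linarith
  have m0 : StrictMonoOn (fun y => q (y + 2) - 2 * q (y + 1) + q y) (Ici a) := by
    have hd : ∀ x, a < x → HasDerivAt (fun y => q (y + 2) - 2 * q (y + 1) + q y)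
        (q1 (x + 2) - 2 * q1 (x + 1) + q1 x) x := by
      intro x hx
      exact (((h1 (x + 2) (by linarith)).comp_add_const x 2).sub
        (((h1 (x + 1) (by linarith)).comp_add_const x 1).const_mul 2)).add (h1 x hx)
    apply strictMonoOn_of_deriv_pos (convex_Ici a)
    · have c2 : ContinuousOn (fun y => q (y + 2)) (Ici a) :=
        hc.comp (by fun_prop) (fun y hy => by simp only [Set.mem_Ici] at hy ⊢; linarith)
      have c1 : ContinuousOn (fun y => q (y + 1)) (Ici a) :=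
        hc.comp (by fun_prop) (fun y hy => by simp only [Set.mem_Ici] at hy ⊢; linarith)
      exact (c2.sub (continuousOn_const.mul c1)).add hc
    · intro x hx
      rw [interior_Ici] at hx
      rw [(hd x hx).deriv]
      have := m1 (show x ∈ Ioi a from hx) (show x + 1 ∈ Ioi a from by
        simp only [Set.mem_Ioi] at hx ⊢; linarith) (by linarith)
      simp only at this
      have e : x + 1 + 1 = x + 2 := by ring
      rw [e] at this
      linarith
  have := m0 (show a ∈ Ici a from le_refl a) (show a + 1 ∈ Ici a from by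
    simp only [Set.mem_Ici]; linarith) (by linarith)
  simp only at this
  have e1 : a + 1 + 2 = a + 3 := by ring
  have e2 : a + 1 + 1 = a + 2 := by ring
  rw [e1, e2] at this
  linarith

/-- third differences of `α y^s - β (y+1)^s` -/
theorem d3_ab (s α β a : ℝ) (hs1 : 1 < s) (hs2 : s < 2) (ha : 0 ≤ a)
    (h : ∀ y, a < y → α * y ^ (s - 3) < β * (y + 1) ^ (s - 3)) :
    0 < α * ((a + 3) ^ s - 3 * (a + 2) ^ s + 3 * (a + 1) ^ s - a ^ s)
      - β * ((a + 4) ^ s - 3 * (a + 3) ^ s + 3 * (a + 2) ^ s - (a + 1) ^ s) := by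
  have key := d3_pos (fun y => α * y ^ s - β * (y + 1) ^ s)
    (fun y => α * (s * y ^ (s - 1)) - β * (s * (y + 1) ^ (s - 1)))
    (fun y => α * (s * ((s - 1) * y ^ (s - 2))) - β * (s * ((s - 1) * (y + 1) ^ (s - 2))))
    (fun y => α * (s * ((s - 1) * ((s - 2) * y ^ (s - 3)))) -
      β * (s * ((s - 1) * ((s - 2) * (y + 1) ^ (s - 3))))) a ?_ ?_ ?_ ?_ ?_
  · have e1 : a + 3 + 1 = a + 4 := by ring
    have e2 : a + 2 + 1 = a + 3 := by ring
    have e3 : a + 1 + 1 = a + 2 := by ring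
    rw [e1, e2, e3] at key
    linarith
  · intro x hx
    have hx0 : 0 < x := by linarith
    have d1 := Real.hasDerivAt_rpow_const (x := x) (p := s) (Or.inl hx0.ne')
    have d2 := (Real.hasDerivAt_rpow_const (x := x + 1) (p := s)
      (Or.inl (by linarith))).comp_add_const x 1
    exact (d1.const_mul α).sub (d2.const_mul β)
  · intro x hx
    have hx0 : 0 < x := by linarith
    have d1 := Real.hasDerivAt_rpow_const (x := x) (p := s - 1) (Or.inl hx0.ne')
    have d2 := (Real.hasDerivAt_rpow_const (x := x + 1) (p := s - 1)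
      (Or.inl (by linarith))).comp_add_const x 1
    have e : s - 1 - 1 = s - 2 := by ring
    rw [e] at d1 d2
    exact ((d1.const_mul s).const_mul α).sub ((d2.const_mul s).const_mul β)
  · intro x hx
    have hx0 : 0 < x := by linarith
    have d1 := Real.hasDerivAt_rpow_const (x := x) (p := s - 2) (Or.inl hx0.ne')
    have d2 := (Real.hasDerivAt_rpow_const (x := x + 1) (p := s - 2)
      (Or.inl (by linarith))).comp_add_const x 1
    have e : s - 2 - 1 = s - 3 := by ring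
    rw [e] at d1 d2
    exact (((d1.const_mul (s - 1)).const_mul s).const_mul α).sub
      (((d2.const_mul (s - 1)).const_mul s).const_mul β)
  · intro x hx
    have h0 := h x hx
    have h1 : 0 < s * (s - 1) * (2 - s) := by
      have := mul_pos (mul_pos (by linarith : (0:ℝ) < s) (by linarith : (0:ℝ) < s - 1))
        (by linarith : (0:ℝ) < 2 - s)
      exact this
    have h2 := mul_pos h1 (sub_pos.mpr h0)
    nlinarith
  · apply ContinuousOn.sub
    · exact continuousOn_const.mul (continuousOn_id.rpow_const fun x _ => Or.inr (by linarith))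
    · exact continuousOn_const.mul
        ((continuousOn_id.add continuousOn_const).rpow_const fun x _ => Or.inr (by linarith))

/-- the third difference of `x^s` at `a` -/
noncomputable def D (s a : ℝ) : ℝ := (a + 3) ^ s - 3 * (a + 2) ^ s + 3 * (a + 1) ^ s - a ^ s

theorem phi_eq (H : ℝ) (n : ℕ) : phi H (n + 1) = -(D (2 * H) n) / 2 := by
  unfold phi gam D
  push_cast
  have h0 : (0 : ℝ) ≤ n := n.cast_nonneg
  have e1 : |(n : ℝ) + 1 + 1| = (n : ℝ) + 2 := by rw [abs_of_nonneg (by linarith)]; ring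
  have e2 : |(n : ℝ) + 1| = (n : ℝ) + 1 := abs_of_nonneg (by linarith)
  have e3 : |(n : ℝ) + 1 - 1| = (n : ℝ) := by rw [abs_of_nonneg (by linarith)]; ring
  have e4 : |(n : ℝ) + 1 + 1 + 1| = (n : ℝ) + 3 := by rw [abs_of_nonneg (by linarith)]; ring
  have e5 : |(n : ℝ) + 1 + 1 - 1| = (n : ℝ) + 1 := by rw [abs_of_nonneg (by linarith)]; ring
  rw [e1, e2, e3, e4, e5]
  ring

theorem phi_zero (H : ℝ) (h : 1 / 2 < H) : phi H 0 = 2 - (2 : ℝ) ^ (2 * H) / 2 := by
  unfold phi gam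
  have e0 : ((0 : ℝ)) ^ (2 * H) = 0 := Real.zero_rpow (by linarith)
  norm_num [e0]
  ring

theorem phi_pos {H : ℝ} (h : 1 / 2 < H) (h1 : H < 1) (n : ℕ) : 0 < phi H n := by
  rcases n with _ | n
  · rw [phi_zero H h]
    have : (2 : ℝ) ^ (2 * H) < 2 ^ (2 : ℝ) :=
      Real.rpow_lt_rpow_of_exponent_lt (by norm_num) (by linarith)
    have e : (2 : ℝ) ^ (2 : ℝ) = 4 := by norm_num
    rw [e] at this
    linarith
  · rw [phi_eq]
    have := d3_ab (2 * H) (-1) 0 n (by linarith) (by linarith) n.cast_nonneg (by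
      intro y hy
      have hy0 : (0 : ℝ) < y := lt_of_le_of_lt n.cast_nonneg hy
      have := Real.rpow_pos_of_pos hy0 (2 * H - 3)
      linarith)
    unfold D
    linarith

theorem u_pos {s : ℝ} (hs2 : s < 2) : 0 < (3 : ℝ) ^ s - 4 * 2 ^ s + 7 := by
  set x : ℝ := 2 ^ (s - 2) with hx
  have hx1 : x < 1 := Real.rpow_lt_one_of_one_lt_of_neg (by norm_num) (by linarith)
  have hx0 : 0 < x := Real.rpow_pos_of_pos (by norm_num) _
  have e2 : (2 : ℝ) ^ s = 4 * x := by
    rw [hx, Real.rpow_sub (by norm_num)]; norm_num; ring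
  have e3 : (3 : ℝ) ^ s = 9 * 3 ^ (s - 2) := by
    rw [Real.rpow_sub (by norm_num)]; norm_num; ring
  have hb := one_add_mul_self_le_rpow_one_add (s := x - 1) (by linarith) (p := 5 / 3) (by norm_num)
  have e4 : (1 + (x - 1)) ^ (5 / 3 : ℝ) = ((2 : ℝ) ^ (5 / 3 : ℝ)) ^ (s - 2) := by
    rw [show 1 + (x - 1) = x by ring, hx, ← Real.rpow_mul (by norm_num), ← Real.rpow_mul (by norm_num)]
    congr 1; ring
  have e5 : (3 : ℝ) ≤ (2 : ℝ) ^ (5 / 3 : ℝ) := by
    have e6 : (2 : ℝ) ^ (5 / 3 : ℝ) = ((2 : ℝ) ^ (5 : ℝ)) ^ (1 / 3 : ℝ) := by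
      rw [← Real.rpow_mul (by norm_num)]; norm_num
    rw [e6]
    calc (3 : ℝ) = ((3 : ℝ) ^ (3 : ℝ)) ^ (1 / 3 : ℝ) := by
          rw [← Real.rpow_mul (by norm_num)]; norm_num
      _ ≤ ((2 : ℝ) ^ (5 : ℝ)) ^ (1 / 3 : ℝ) := by
          apply Real.rpow_le_rpow (by positivity) _ (by norm_num)
          norm_num
  have e7 : ((2 : ℝ) ^ (5 / 3 : ℝ)) ^ (s - 2) ≤ 3 ^ (s - 2) :=
    Real.rpow_le_rpow_of_nonpos (by norm_num) e5 (by linarith)
  rw [e4] at hb
  rw [e2, e3]
  linarith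

theorem gam_neg (H : ℝ) (j : ℤ) : gam H (-j) = gam H j := by
  unfold gam
  push_cast
  have e1 : |-(j : ℝ) + 1| = |(j : ℝ) - 1| := by rw [← abs_neg]; congr 1; ring
  have e2 : |-(j : ℝ) - 1| = |(j : ℝ) + 1| := by rw [← abs_neg]; congr 1; ring
  rw [e1, e2, abs_neg]
  ring

theorem dlt_neg (H : ℝ) (j : ℤ) : dlt H (-j) = dlt H j := by
  unfold dlt
  have e1 : -j + 1 = -(j - 1) := by ring
  have e2 : -j - 1 = -(j + 1) := by ring
  rw [e1, e2, gam_neg, gam_neg, gam_neg]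
  ring

theorem dlt_succ (H : ℝ) (n : ℕ) : dlt H ((n : ℤ) + 1) = phi H (n + 1) - phi H n := by
  unfold dlt phi
  push_cast
  have e : (n : ℤ) + 1 - 1 = n := by ring
  rw [e]
  ring

theorem dlt_one_neg {H : ℝ} (h : 1 / 2 < H) (h1 : H < 1) : dlt H 1 < 0 := by
  have e := dlt_succ H 0
  rw [phi_zero H h, phi_eq] at e
  simp only [Nat.cast_zero, zero_add] at e
  rw [e]
  unfold D
  have e0 : ((0 : ℝ)) ^ (2 * H) = 0 := Real.zero_rpow (by linarith)
  have := u_pos (s := 2 * H) (by linarith)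
  simp only [zero_add, e0, Real.one_rpow]
  linarith

theorem phi_anti {H : ℝ} (h : 1 / 2 < H) (h1 : H < 1) (n : ℕ) : phi H (n + 1) ≤ phi H n := by
  rcases n with _ | n
  · have := dlt_one_neg h h1
    have e := dlt_succ H 0
    simp only [Nat.cast_zero, zero_add] at e
    simp only [zero_add]
    linarith
  · rw [phi_eq, phi_eq]
    have := d3_ab (2 * H) (-1) (-1) n (by linarith) (by linarith) n.cast_nonneg (by
      intro y hy
      have hy0 : (0 : ℝ) < y := lt_of_le_of_lt n.cast_nonneg hy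
      have := Real.rpow_lt_rpow_of_neg hy0 (show y < y + 1 by linarith)
        (show 2 * H - 3 < 0 by linarith)
      linarith)
    unfold D
    push_cast
    have e1 : (n : ℝ) + 1 + 3 = n + 4 := by ring
    have e2 : (n : ℝ) + 1 + 2 = n + 3 := by ring
    have e3 : (n : ℝ) + 1 + 1 = n + 2 := by ring
    rw [e1, e2, e3]
    linarith

theorem dlt_nonpos {H : ℝ} (h : 1 / 2 < H) (h1 : H < 1) {j : ℤ} (hj : j ≠ 0) : dlt H j ≤ 0 := by
  have hn : ∀ n : ℕ, dlt H ((n : ℤ) + 1) ≤ 0 := fun n => by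
    rw [dlt_succ]; linarith [phi_anti h h1 n]
  rcases lt_or_gt_of_ne hj with h0 | h0
  · obtain ⟨n, hn'⟩ : ∃ n : ℕ, -j = (n : ℤ) + 1 := ⟨(-j - 1).toNat, by omega⟩
    rw [← dlt_neg, hn']; exact hn n
  · obtain ⟨n, hn'⟩ : ∃ n : ℕ, j = (n : ℤ) + 1 := ⟨(j - 1).toNat, by omega⟩
    rw [hn']; exact hn n

theorem row {H : ℝ} (i n : ℕ) :
    ∑ m ∈ range (i + n + 1), dlt H ((i : ℤ) - (m : ℤ)) = phi H i + phi H n := by
  have h : ∀ m : ℕ, dlt H ((i : ℤ) - (m : ℤ)) =
      (fun m : ℕ => -(gam H ((i : ℤ) - m) - gam H ((i : ℤ) - m + 1))) (m + 1) -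
      (fun m : ℕ => -(gam H ((i : ℤ) - m) - gam H ((i : ℤ) - m + 1))) m := by
    intro m
    simp only [dlt]
    push_cast
    have e1 : (i : ℤ) - (m + 1) = i - m - 1 := by ring
    have e2 : (i : ℤ) - m - 1 + 1 = i - m := by ring
    rw [e1, e2]
    ring
  rw [Finset.sum_congr rfl fun m _ => h m,
    Finset.sum_range_sub (fun m : ℕ => -(gam H ((i : ℤ) - m) - gam H ((i : ℤ) - m + 1)))]
  simp only [phi]
  push_cast
  have e1 : (i : ℤ) - (i + n + 1) = -((n : ℤ) + 1) := by ring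
  have e2 : -((n : ℤ) + 1) + 1 = -(n : ℤ) := by ring
  rw [e1, e2, gam_neg, gam_neg]
  simp only [sub_zero]
  ring

theorem key {H : ℝ} (h : 1 / 2 < H) (h1 : H < 1) (n : ℕ) :
    ((n : ℝ) + 1) * (- dlt H ((n : ℤ) + 1)) ≤ 3 * phi H n := by
  rw [dlt_succ]
  have p0 := phi_pos h h1 n
  have p1 := phi_pos h h1 (n + 1)
  have hn0 : (0 : ℝ) ≤ n := n.cast_nonneg
  suffices hs : ((n : ℝ) - 2) * phi H n ≤ ((n : ℝ) + 1) * phi H (n + 1) by nlinarith
  rcases Nat.lt_or_ge n 3 with hn | hn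
  · have h2 : (n : ℝ) ≤ 2 := by exact_mod_cast Nat.lt_succ_iff.mp hn
    nlinarith [mul_nonneg (by linarith : (0:ℝ) ≤ 2 - n) p0.le,
      mul_nonneg (by linarith : (0:ℝ) ≤ (n : ℝ) + 1) p1.le]
  · obtain ⟨k, rfl⟩ : ∃ k, n = k + 3 := ⟨n - 3, by omega⟩
    have hk0 : (0 : ℝ) ≤ k := k.cast_nonneg
    have hd := d3_ab (2 * H) ((k : ℝ) + 1) ((k : ℝ) + 4) (k + 2) (by linarith) (by linarith)
      (by linarith) (by
        intro y hy
        have hy0 : (0 : ℝ) < y := by linarith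
        have e1 : y ^ (2 * H - 3) = y ^ (2 * H - 1) / y ^ 2 := by
          rw [show 2 * H - 3 = (2 * H - 1) - (2 : ℕ) by push_cast; ring,
            Real.rpow_sub_natCast hy0.ne']
        have e2 : (y + 1) ^ (2 * H - 3) = (y + 1) ^ (2 * H - 1) / (y + 1) ^ 2 := by
          rw [show 2 * H - 3 = (2 * H - 1) - (2 : ℕ) by push_cast; ring,
            Real.rpow_sub_natCast (by linarith : y + 1 ≠ 0)]
        have e3 : y ^ (2 * H - 1) ≤ (y + 1) ^ (2 * H - 1) :=
          Real.rpow_le_rpow hy0.le (by linarith) (by linarith)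
        have e4 : 0 < (y + 1) ^ (2 * H - 1) := Real.rpow_pos_of_pos (by linarith) _
        rw [e1, e2, mul_div_assoc', mul_div_assoc', div_lt_div_iff₀ (by positivity) (by positivity)]
        have e5 : ((k : ℝ) + 1) * (y + 1) ^ 2 < ((k : ℝ) + 4) * y ^ 2 := by
          nlinarith [mul_pos hy0 (by linarith : (0:ℝ) < y - (k + 2))]
        calc ((k : ℝ) + 1) * y ^ (2 * H - 1) * (y + 1) ^ 2
            ≤ ((k : ℝ) + 1) * (y + 1) ^ (2 * H - 1) * (y + 1) ^ 2 := by gcongr
          _ = (((k : ℝ) + 1) * (y + 1) ^ 2) * (y + 1) ^ (2 * H - 1) := by ring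
          _ < (((k : ℝ) + 4) * y ^ 2) * (y + 1) ^ (2 * H - 1) := by gcongr
          _ = ((k : ℝ) + 4) * (y + 1) ^ (2 * H - 1) * y ^ 2 := by ring)
    have f1 : phi H (k + 3) = -(((k : ℝ) + 5) ^ (2 * H) - 3 * ((k : ℝ) + 4) ^ (2 * H)
        + 3 * ((k : ℝ) + 3) ^ (2 * H) - ((k : ℝ) + 2) ^ (2 * H)) / 2 := by
      have := phi_eq H (k + 2)
      unfold D at this
      push_cast at this
      rw [show (k : ℝ) + 2 + 3 = k + 5 by ring, show (k : ℝ) + 2 + 2 = k + 4 by ring,
        show (k : ℝ) + 2 + 1 = k + 3 by ring] at this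
      exact this
    have f2 : phi H (k + 3 + 1) = -(((k : ℝ) + 6) ^ (2 * H) - 3 * ((k : ℝ) + 5) ^ (2 * H)
        + 3 * ((k : ℝ) + 4) ^ (2 * H) - ((k : ℝ) + 3) ^ (2 * H)) / 2 := by
      have := phi_eq H (k + 3)
      unfold D at this
      push_cast at this
      rw [show (k : ℝ) + 3 + 3 = k + 6 by ring, show (k : ℝ) + 3 + 2 = k + 5 by ring,
        show (k : ℝ) + 3 + 1 = k + 4 by ring] at this
      exact this
    rw [show (k : ℝ) + 2 + 4 = k + 6 by ring, show (k : ℝ) + 2 + 3 = k + 5 by ring,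
      show (k : ℝ) + 2 + 2 = k + 4 by ring, show (k : ℝ) + 2 + 1 = k + 3 by ring] at hd
    rw [f1, f2]
    push_cast
    have e4 : (k : ℝ) + 3 - 2 = k + 1 := by ring
    have e5 : (k : ℝ) + 3 + 1 = k + 4 := by ring
    rw [e4, e5]
    linarith

theorem gam_nonneg {H : ℝ} (h : 1 / 2 < H) (h1 : H < 1) (j : ℤ) : 0 ≤ gam H j := by
  have hn : ∀ n : ℕ, 0 ≤ gam H (n : ℤ) := by
    intro n
    rcases n with _ | n
    · unfold gam
      have e0 : ((0 : ℝ)) ^ (2 * H) = 0 := Real.zero_rpow (by linarith)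
      norm_num [e0]
    · unfold gam
      push_cast
      have h0 : (0 : ℝ) ≤ n := n.cast_nonneg
      have e1 : |(n : ℝ) + 1 + 1| = (n : ℝ) + 2 := by rw [abs_of_nonneg (by linarith)]; ring
      have e2 : |(n : ℝ) + 1| = (n : ℝ) + 1 := abs_of_nonneg (by linarith)
      have e3 : |(n : ℝ) + 1 - 1| = (n : ℝ) := by rw [abs_of_nonneg (by linarith)]; ring
      rw [e1, e2, e3]
      have hc := (convexOn_rpow (p := 2 * H) (by linarith)).2
        (show (n : ℝ) + 2 ∈ Ici (0 : ℝ) by simp only [Set.mem_Ici]; linarith)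
        (show (n : ℝ) ∈ Ici (0 : ℝ) from h0)
        (show (0 : ℝ) ≤ 1 / 2 by norm_num) (show (0 : ℝ) ≤ 1 / 2 by norm_num) (by norm_num)
      simp only [smul_eq_mul] at hc
      have e4 : 1 / 2 * ((n : ℝ) + 2) + 1 / 2 * n = n + 1 := by ring
      rw [e4] at hc
      linarith
  rcases le_total 0 j with hj | hj
  · obtain ⟨n, rfl⟩ := Int.eq_ofNat_of_zero_le hj
    exact hn n
  · obtain ⟨n, hn'⟩ := Int.eq_ofNat_of_zero_le (show 0 ≤ -j by omega)
    rw [← gam_neg, hn']; exact hn n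

theorem mt_dlt {H : ℝ} (h : 1 / 2 < H) (h1 : H < 1) : MT (dlt H) (phi H) 3 :=
  ⟨fun _ hj => dlt_nonpos h h1 hj, phi_pos h h1, fun i n => row i n, key h h1⟩

end Pool.Agent.K4H25.FH
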