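import Mathlib
import Pool.Agent.K4H72.Til.Spec

/-! Piece T6 (radius) of MP_885f6d_mp. -/

set_option autoImplicit false

open Set

namespace Pool.Agent.K4H72.Til

theorem half6 (h : ℝ) (hh : 0 < h) (Z e' U : ℂ) (hU : ‖U‖ = 1)
    (hd : ‖e' - (h : ℂ) * U‖ ≤ 1 / 20 * h) (hz : ‖Z‖ ≤ ‖Z - e'‖) :
    2 * (Z.re * U.re + Z.im * U.im) ≤ 441 / 400 * h + 1 / 10 * ‖Z‖ := by
  have hin : ∀ a b : ℂ, inner ℝ a b = a.re * b.re + a.im * b.im := by
    intro a b
    rw [Complex.inner]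
    simp [Complex.mul_re]
    ring
  have h1 := norm_sub_sq_real Z e'
  have h2 : ‖Z‖ ^ 2 ≤ ‖Z - e'‖ ^ 2 := pow_le_pow_left₀ (norm_nonneg _) hz 2
  have h3 : ‖e'‖ ≤ 21 / 20 * h := by
    have : e' = (h : ℂ) * U + (e' - (h : ℂ) * U) := by ring
    rw [this]
    refine (norm_add_le _ _).trans ?_
    rw [norm_mul, hU, Complex.norm_real, Real.norm_eq_abs, abs_of_pos hh]
    linarith
  have h4 : ‖e'‖ ^ 2 ≤ (21 / 20 * h) ^ 2 := pow_le_pow_left₀ (norm_nonneg _) h3 2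
  have h5 : -(inner ℝ Z (e' - (h : ℂ) * U)) ≤ ‖Z‖ * (1 / 20 * h) := by
    have := neg_le_of_abs_le (abs_real_inner_le_norm Z (e' - (h : ℂ) * U))
    have h6 := mul_le_mul_of_nonneg_left hd (norm_nonneg Z)
    linarith
  rw [hin] at h5 h1
  have e1 : (e' - (h : ℂ) * U).re = e'.re - h * U.re := by simp
  have e2 : (e' - (h : ℂ) * U).im = e'.im - h * U.im := by simp
  rw [e1, e2] at h5
  have h7 : h * (2 * (Z.re * U.re + Z.im * U.im)) ≤ h * (441 / 400 * h + 1 / 10 * ‖Z‖) := by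
    nlinarith
  exact le_of_mul_le_mul_left h7 hh

/-- T6 -/
theorem radius (h : ℝ) (g : ℤ × ℤ → ℂ) (hg : Def1 h g) (v : ℤ × ℤ) (z : ℂ)
    (hz : ∀ e ∈ six, ‖z - g v‖ ≤ ‖z - g (v + e)‖) : ‖z - g v‖ ≤ 7 / 10 * h := by
  obtain ⟨hh, hg⟩ := hg
  set Z := z - g v with hZ
  set A := 441 / 400 * h + 1 / 10 * ‖Z‖ with hA
  have hs3 : Real.sqrt 3 ^ 2 = 3 := Real.sq_sqrt (by norm_num)
  have gen : ∀ e ∈ six, ‖E e‖ = 1 → 2 * (Z.re * (E e).re + Z.im * (E e).im) ≤ A := by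
    intro e he hE
    have h1 := hg (v + e) v
    rw [add_sub_cancel_left, hE, mul_one] at h1
    apply half6 h hh Z (g (v + e) - g v) (E e) hE h1
    have := hz e he
    have e1 : Z - (g (v + e) - g v) = z - g (v + e) := by rw [hZ]; ring
    rw [e1]; exact this
  have hre : ∀ a b : ℤ, (E (a, b)).re = a + b / 2 := by
    intro a b
    simp [E, ζ]
    ring
  have him : ∀ a b : ℤ, (E (a, b)).im = b * (Real.sqrt 3 / 2) := by
    intro a b
    simp [E, ζ]
  have hnorm : ∀ a b : ℤ, (a : ℝ) ^ 2 + a * b + b ^ 2 = 1 → ‖E (a, b)‖ = 1 := by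
    intro a b hab
    have : ‖E (a, b)‖ ^ 2 = 1 := by
      rw [Complex.sq_norm, Complex.normSq_apply, hre, him]
      nlinarith
    nlinarith [norm_nonneg (E (a, b))]
  have g1 := gen (1, 0) (by simp [six]) (hnorm 1 0 (by norm_num))
  have g2 := gen (-1, 0) (by simp [six]) (hnorm (-1) 0 (by norm_num))
  have g3 := gen (0, 1) (by simp [six]) (hnorm 0 1 (by norm_num))
  have g4 := gen (0, -1) (by simp [six]) (hnorm 0 (-1) (by norm_num))
  have g5 := gen (1, -1) (by simp [six]) (hnorm 1 (-1) (by norm_num))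
  have g6 := gen (-1, 1) (by simp [six]) (hnorm (-1) 1 (by norm_num))
  rw [hre, him] at g1 g2 g3 g4 g5 g6
  push_cast at g1 g2 g3 g4 g5 g6
  set x := Z.re with hx
  set y := Z.im with hy
  set q := Real.sqrt 3 with hq
  set s := 2 * x with hs
  set t := x + q * y with ht
  have k1 : s ≤ A := by rw [hs]; linarith
  have k2 : -s ≤ A := by rw [hs]; linarith
  have k3 : t ≤ A := by rw [ht]; linarith
  have k4 : -t ≤ A := by rw [ht]; linarith
  have k5 : s - t ≤ A := by rw [hs, ht]; linarith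
  have k6 : -(s - t) ≤ A := by rw [hs, ht]; linarith
  have hr : 3 * ‖Z‖ ^ 2 = s ^ 2 - s * t + t ^ 2 := by
    rw [Complex.sq_norm, Complex.normSq_apply, hs, ht, ← hx, ← hy]
    nlinarith
  have hA0 : 0 ≤ A := by linarith
  have hmax : s ^ 2 - s * t + t ^ 2 ≤ A ^ 2 := by
    rcases le_total 0 s with a | a <;> rcases le_total 0 t with b | b <;>
      rcases le_total 0 (s - t) with c | c <;> nlinarith
  have hr0 := norm_nonneg Z
  by_contra hcon
  push Not at hcon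
  have hA2 : A ≤ 1675 / 1000 * ‖Z‖ := by rw [hA]; linarith
  have : A ^ 2 ≤ (1675 / 1000 * ‖Z‖) ^ 2 := pow_le_pow_left₀ hA0 hA2 2
  have hpos : 0 < ‖Z‖ := by linarith
  nlinarith [pow_pos hpos 2]

end Pool.Agent.K4H72.Til
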